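import Mathlib

/-!
# The terminal shape of the random (x, y) edge-removal process

For all `x, y ≥ 1` the probability that the `(x, y)` edge-removal process on `n` vertices stops at
an `(x, y)` task-dependency graph tends to `1` as `n → ∞`; it is at least
`1 - (x ^ 2 + y ^ 2) / (n - x - y)` for `n > x + y`.

Idea: if the process stops with exactly `x` initial vertices but fewer than `y` terminal vertices,
then every vertex has in-degree at most one and some edge `(s, t)` between two of the last `y`
vertices is present. While there are fewer than `y` terminal vertices, `1 / indeg(t)` on the event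
that `(s, t)` is present is a supermartingale, and its initial value is `1 / (number of vertices
before t)`.
-/

set_option autoImplicit false
set_option linter.unusedSectionVars false
set_option linter.unusedSimpArgs false
set_option linter.unusedVariables false

open Finset Filter Topology

namespace Pool.Agent.Results.MP_f59edb_pr.ShapeLimit

/-- The complete task-dependency graph on `n` vertices: all edges `(a, b)` with `a < b`. Graphs are
given by their sets of edges; the vertices are the elements of `Fin n`. -/
def complete (n : ℕ) : Finset (Fin n × Fin n) := univ.filter (fun e => e.1 < e.2)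

/-- The initial vertices: those of in-degree `0`. -/
def initials {n : ℕ} (G : Finset (Fin n × Fin n)) : Finset (Fin n) :=
  univ.filter (fun v => ∀ e ∈ G, e.2 ≠ v)

/-- The terminal vertices: those of out-degree `0`. -/
def terminals {n : ℕ} (G : Finset (Fin n × Fin n)) : Finset (Fin n) :=
  univ.filter (fun v => ∀ e ∈ G, e.1 ≠ v)

/-- The removable edges: the edges of `G` whose removal leaves at most `x` initial and at most `y`
terminal vertices. -/
def removable {n : ℕ} (x y : ℕ) (G : Finset (Fin n × Fin n)) : Finset (Fin n × Fin n) :=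
  G.filter (fun e => (initials (G.erase e)).card ≤ x ∧ (terminals (G.erase e)).card ≤ y)

open Classical in
/-- One step of the `(x, y)` edge-removal process: remove a uniformly random removable edge; stay
if there is none (the process has stopped). -/
noncomputable def step {n : ℕ} (x y : ℕ) (G : Finset (Fin n × Fin n)) :
    PMF (Finset (Fin n × Fin n)) :=
  if h : (removable x y G).Nonempty then
    (PMF.uniformOfFinset (removable x y G) h).map (fun e => G.erase e)
  else PMF.pure G

/-- The law of the graph after `k` steps, starting from the complete graph. -/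
noncomputable def law (x y n : ℕ) : ℕ → PMF (Finset (Fin n × Fin n))
  | 0 => PMF.pure (complete n)
  | k + 1 => (law x y n k).bind (step x y)

/-- `r_{x,y,n}`: the probability that the process on `n` vertices stops at an `(x, y)`
task-dependency graph. (The process has stopped after `n choose 2` steps, because every step before
stopping removes an edge.) -/
noncomputable def r (x y n : ℕ) : ℝ :=
  ((law x y n (n.choose 2)).toOuterMeasure
    {G | (initials G).card = x ∧ (terminals G).card = y}).toReal

section expectation

variable {S : Type*} [Fintype S]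

/-- expectation -/
noncomputable def ex (p : PMF S) (f : S → ℝ) : ℝ := ∑ s, (p s).toReal * f s

lemma ex_pure [DecidableEq S] (a : S) (f : S → ℝ) : ex (PMF.pure a) f = f a := by
  unfold ex
  rw [sum_eq_single a]
  · simp
  · intro b _ hb
    simp [PMF.pure_apply, hb]
  · simp

lemma ex_bind {A : Type*} [Fintype A] (p : PMF A) (q : A → PMF S) (f : S → ℝ) :
    ex (p.bind q) f = ∑ s, (p s).toReal * ex (q s) f := by
  unfold ex
  simp only [PMF.bind_apply, tsum_fintype]
  have h : ∀ s, (∑ a, p a * (q a) s).toReal = ∑ a, (p a).toReal * ((q a) s).toReal := by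
    intro s
    rw [ENNReal.toReal_sum]
    · simp [ENNReal.toReal_mul]
    · intro a _
      exact ENNReal.mul_ne_top (PMF.apply_ne_top _ _) (PMF.apply_ne_top _ _)
  simp only [h, sum_mul, mul_sum]
  rw [sum_comm]
  refine sum_congr rfl fun a _ => sum_congr rfl fun s _ => by ring

lemma ex_map {A : Type*} [Fintype A] [DecidableEq S] (p : PMF A) (g : A → S) (f : S → ℝ) :
    ex (p.map g) f = ∑ a, (p a).toReal * f (g a) := by
  rw [PMF.map, ex_bind]
  refine sum_congr rfl fun a _ => ?_
  rw [Function.comp_apply, ex_pure]

lemma ex_mono (p : PMF S) (f g : S → ℝ) (h : ∀ s, p s ≠ 0 → f s ≤ g s) : ex p f ≤ ex p g := by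
  unfold ex
  apply sum_le_sum
  intro s _
  by_cases hs : p s = 0
  · simp [hs]
  · exact mul_le_mul_of_nonneg_left (h s hs) ENNReal.toReal_nonneg

lemma ex_one (p : PMF S) : ex p (fun _ => 1) = 1 := by
  unfold ex
  simp only [mul_one]
  have h := p.tsum_coe
  rw [tsum_fintype] at h
  rw [← ENNReal.toReal_sum fun a _ => PMF.apply_ne_top _ _, h]
  rfl

lemma ex_sum {ι : Type*} (p : PMF S) (t : Finset ι) (f : ι → S → ℝ) :
    ex p (fun s => ∑ i ∈ t, f i s) = ∑ i ∈ t, ex p (f i) := by
  unfold ex
  simp only [mul_sum]
  rw [sum_comm]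

lemma ex_add (p : PMF S) (f g : S → ℝ) : ex p (fun s => f s + g s) = ex p f + ex p g := by
  unfold ex
  simp only [mul_add, sum_add_distrib]

open Classical in
lemma ex_indicator (p : PMF S) (A : Set S) :
    (p.toOuterMeasure A).toReal = ex p (fun s => if s ∈ A then 1 else 0) := by
  rw [PMF.toOuterMeasure_apply_fintype, ENNReal.toReal_sum]
  · unfold ex
    refine sum_congr rfl fun s _ => ?_
    by_cases h : s ∈ A <;> simp [h]
  · intro s _
    by_cases h : s ∈ A
    · simp [h, PMF.apply_ne_top]
    · simp [h]

end expectation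

section graph

variable {n : ℕ}

/-- the vertices that are not of the form `g e`, `e ∈ G` -/
def miss (g : Fin n × Fin n → Fin n) (G : Finset (Fin n × Fin n)) : Finset (Fin n) :=
  univ.filter (fun v => ∀ e ∈ G, g e ≠ v)

lemma initials_eq (G : Finset (Fin n × Fin n)) : initials G = miss Prod.snd G := rfl
lemma terminals_eq (G : Finset (Fin n × Fin n)) : terminals G = miss Prod.fst G := rfl

lemma miss_anti (g : Fin n × Fin n → Fin n) {G H : Finset (Fin n × Fin n)} (h : G ⊆ H) :
    miss g H ⊆ miss g G := by
  intro v hv
  simp only [miss, mem_filter, mem_univ, true_and] at hv ⊢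
  exact fun e he => hv e (h he)

/-- the edges of `G` that are mapped to `v` by `g` -/
def fib (g : Fin n × Fin n → Fin n) (v : Fin n) (G : Finset (Fin n × Fin n)) :
    Finset (Fin n × Fin n) := G.filter (fun e => g e = v)

lemma miss_erase (g : Fin n × Fin n → Fin n) (G : Finset (Fin n × Fin n)) (e : Fin n × Fin n) :
    miss g (G.erase e) ⊆ insert (g e) (miss g G) := by
  intro v hv
  simp only [miss, mem_filter, mem_univ, true_and, mem_insert, mem_erase] at hv ⊢
  by_cases h : v = g e
  · exact Or.inl h
  · right
    intro f hf hfv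
    by_cases hfe : f = e
    · subst hfe; exact h hfv.symm
    · exact hv f ⟨hfe, hf⟩ hfv

lemma card_miss_erase (g : Fin n × Fin n → Fin n) (G : Finset (Fin n × Fin n))
    (e : Fin n × Fin n) : (miss g (G.erase e)).card ≤ (miss g G).card + 1 :=
  (card_le_card (miss_erase g G e)).trans (card_insert_le _ _)

lemma miss_erase_eq (g : Fin n × Fin n → Fin n) (G : Finset (Fin n × Fin n)) (e : Fin n × Fin n)
    (h : 2 ≤ (fib g (g e) G).card) : miss g (G.erase e) = miss g G := by
  apply Subset.antisymm _ (miss_anti g (erase_subset _ _))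
  intro v hv
  have := miss_erase g G e hv
  rw [mem_insert] at this
  rcases this with h1 | h1
  · exfalso
    obtain ⟨f, hf, hfe⟩ := exists_mem_ne (by omega : 1 < (fib g (g e) G).card) e
    simp only [fib, mem_filter] at hf
    simp only [miss, mem_filter, mem_univ, true_and, mem_erase] at hv
    exact hv f ⟨hfe, hf.1⟩ (hf.2.trans h1.symm)
  · exact h1

/-- removable edges with respect to two end point maps -/
def rem (g h : Fin n × Fin n → Fin n) (a b : ℕ) (G : Finset (Fin n × Fin n)) :
    Finset (Fin n × Fin n) :=
  G.filter (fun e => (miss g (G.erase e)).card ≤ a ∧ (miss h (G.erase e)).card ≤ b)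

lemma removable_eq1 (x y : ℕ) (G : Finset (Fin n × Fin n)) :
    removable x y G = rem Prod.snd Prod.fst x y G := rfl

lemma removable_eq2 (x y : ℕ) (G : Finset (Fin n × Fin n)) :
    removable x y G = rem Prod.fst Prod.snd y x G := by
  unfold removable rem
  apply filter_congr
  intro e _
  rw [initials_eq, terminals_eq, and_comm]

/-- the supermartingale: `1 / (number of edges with the same end point as f)` while `f` is present
and `miss h` has fewer than `b` elements -/
noncomputable def phi (g h : Fin n × Fin n → Fin n) (b : ℕ) (f : Fin n × Fin n)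
    (G : Finset (Fin n × Fin n)) : ℝ :=
  if f ∈ G ∧ (miss h G).card < b then 1 / ((fib g (g f) G).card : ℝ) else 0

lemma phi_nonneg (g h : Fin n × Fin n → Fin n) (b : ℕ) (f : Fin n × Fin n)
    (G : Finset (Fin n × Fin n)) : 0 ≤ phi g h b f G := by
  unfold phi
  split_ifs <;> positivity

lemma fib_pos (g : Fin n × Fin n → Fin n) {f : Fin n × Fin n} {G : Finset (Fin n × Fin n)}
    (hf : f ∈ G) : 1 ≤ (fib g (g f) G).card :=
  card_pos.2 ⟨f, by simp [fib, hf]⟩

lemma fib_erase_ne (g : Fin n × Fin n → Fin n) {v : Fin n} {e : Fin n × Fin n}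
    {G : Finset (Fin n × Fin n)} (he : g e ≠ v) : fib g v (G.erase e) = fib g v G := by
  ext f
  simp only [fib, mem_filter, mem_erase]
  constructor
  · rintro ⟨⟨h1, h2⟩, h3⟩
    exact ⟨h2, h3⟩
  · rintro ⟨h1, h2⟩
    refine ⟨⟨?_, h1⟩, h2⟩
    rintro rfl
    exact he h2

lemma fib_erase_eq (g : Fin n × Fin n → Fin n) {e : Fin n × Fin n}
    {G : Finset (Fin n × Fin n)} (he : e ∈ G) :
    (fib g (g e) (G.erase e)).card = (fib g (g e) G).card - 1 := by
  have : fib g (g e) (G.erase e) = (fib g (g e) G).erase e := by
    ext f
    simp only [fib, mem_filter, mem_erase]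
    tauto
  rw [this, card_erase_of_mem]
  simp [fib, he]

/-- supermartingale inequality -/
lemma phi_super (g h : Fin n × Fin n → Fin n) (a b : ℕ) (f : Fin n × Fin n)
    (G : Finset (Fin n × Fin n)) (hne : (rem g h a b G).Nonempty) :
    ∑ e ∈ rem g h a b G, phi g h b f (G.erase e) ≤ (rem g h a b G).card * phi g h b f G := by
  by_cases hc : f ∈ G ∧ (miss h G).card < b
  · obtain ⟨hf, hb⟩ := hc
    set d := (fib g (g f) G).card with hd
    have hd1 : 1 ≤ d := fib_pos g hf
    have hphi : phi g h b f G = 1 / (d : ℝ) := by
      unfold phi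
      rw [if_pos ⟨hf, hb⟩]
    have hdpos : (0 : ℝ) < d := by exact_mod_cast hd1
    -- initial vertices are at most `a`
    have ha : (miss g G).card ≤ a := by
      obtain ⟨e, he⟩ := hne
      simp only [rem, mem_filter] at he
      exact (card_le_card (miss_anti g (erase_subset _ _))).trans he.2.1
    by_cases hd2 : 2 ≤ d
    · -- all edges of the fibre are removable
      have hsub : fib g (g f) G ⊆ rem g h a b G := by
        intro e he
        simp only [fib, mem_filter] at he
        simp only [rem, mem_filter]
        refine ⟨he.1, ?_, ?_⟩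
        · rw [miss_erase_eq g G e (by rw [he.2]; exact hd2)]
          exact ha
        · have := card_miss_erase h G e
          omega
      rw [← sum_sdiff hsub]
      have h1 : ∑ e ∈ rem g h a b G \ fib g (g f) G, phi g h b f (G.erase e) ≤
          ((rem g h a b G \ fib g (g f) G).card : ℝ) * (1 / d) := by
        rw [← nsmul_eq_mul]
        apply sum_le_card_nsmul
        intro e he
        rw [Finset.mem_sdiff] at he
        have hge : g e ≠ g f := fun hh => he.2 (mem_filter.2 ⟨(mem_filter.1 he.1).1, hh⟩)
        unfold phi
        split_ifs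
        · rw [fib_erase_ne g hge]
        · positivity
      have h2 : ∑ e ∈ fib g (g f) G, phi g h b f (G.erase e) ≤ 1 := by
        have hfm : f ∈ fib g (g f) G := by simp [fib, hf]
        rw [← add_sum_erase _ _ hfm]
        have h3 : phi g h b f (G.erase f) = 0 := by
          unfold phi
          simp
        rw [h3, zero_add]
        have h4 : ∑ e ∈ (fib g (g f) G).erase f, phi g h b f (G.erase e) ≤
            (((fib g (g f) G).erase f).card : ℝ) * (1 / ((d : ℝ) - 1)) := by
          rw [← nsmul_eq_mul]
          apply sum_le_card_nsmul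
          intro e he
          simp only [mem_erase, fib, mem_filter] at he
          unfold phi
          have hcast : ((d - 1 : ℕ) : ℝ) = (d : ℝ) - 1 := by
            rw [Nat.cast_sub hd1]; simp
          have hpos : (0 : ℝ) < (d : ℝ) - 1 := by
            rw [← hcast]; exact_mod_cast (by omega : 0 < d - 1)
          split_ifs
          · have h5 := fib_erase_eq g he.2.1
            rw [he.2.2] at h5
            rw [h5, ← hd, hcast]
          · positivity
        rw [card_erase_of_mem hfm, ← hd] at h4
        have hcast : ((d - 1 : ℕ) : ℝ) = (d : ℝ) - 1 := by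
          rw [Nat.cast_sub hd1]; simp
        have hpos : (0 : ℝ) < (d : ℝ) - 1 := by
          rw [← hcast]; exact_mod_cast (by omega : 0 < d - 1)
        rw [hcast, mul_one_div_cancel hpos.ne'] at h4
        exact h4
      have h5 : ((rem g h a b G \ fib g (g f) G).card : ℝ) = (rem g h a b G).card - d := by
        rw [card_sdiff_of_subset hsub, Nat.cast_sub (card_le_card hsub)]
      rw [h5] at h1
      rw [hphi]
      have h6 : ((rem g h a b G).card - (d : ℝ)) * (1 / d) = (rem g h a b G).card * (1 / d) - 1 := by
        field_simp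
      linarith
    · have hd3 : d = 1 := by omega
      rw [hphi, hd3, ← nsmul_eq_mul]
      apply sum_le_card_nsmul
      intro e _
      unfold phi
      split_ifs with hc
      · have := fib_pos g hc.1
        rw [Nat.cast_one, div_one, div_le_one (by exact_mod_cast this)]
        exact_mod_cast this
      · norm_num
  · have h0 : phi g h b f G = 0 := by
      unfold phi
      rw [if_neg hc]
    rw [h0, mul_zero]
    apply le_of_eq
    apply sum_eq_zero
    intro e _
    unfold phi
    rw [if_neg]
    rintro ⟨h1, h2⟩
    apply hc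
    exact ⟨mem_of_mem_erase h1, lt_of_le_of_lt (card_le_card (miss_anti h (erase_subset _ _))) h2⟩

lemma ex_step (x y : ℕ) (G : Finset (Fin n × Fin n)) (h : (removable x y G).Nonempty)
    (f : Finset (Fin n × Fin n) → ℝ) :
    ex (step x y G) f =
      (∑ e ∈ removable x y G, f (G.erase e)) / ((removable x y G).card : ℝ) := by
  unfold step
  rw [dif_pos h, ex_map]
  simp only [PMF.uniformOfFinset_apply]
  rw [← sum_subset (subset_univ (removable x y G))]
  · rw [sum_div]
    refine sum_congr rfl fun e he => ?_
    rw [if_pos he, ENNReal.toReal_inv, ENNReal.toReal_natCast, div_eq_inv_mul]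
  · intro e _ he
    rw [if_neg he]
    simp

lemma ex_step_le (x y : ℕ) (G : Finset (Fin n × Fin n)) (f : Finset (Fin n × Fin n) → ℝ)
    (hf : (removable x y G).Nonempty →
      ∑ e ∈ removable x y G, f (G.erase e) ≤ (removable x y G).card * f G) :
    ex (step x y G) f ≤ f G := by
  by_cases h : (removable x y G).Nonempty
  · rw [ex_step x y G h, div_le_iff₀ (by exact_mod_cast card_pos.2 h), mul_comm]
    exact hf h
  · unfold step
    rw [dif_neg h, ex_pure]

lemma ex_law_le (x y : ℕ) (f : Finset (Fin n × Fin n) → ℝ)
    (hf : ∀ G, (removable x y G).Nonempty →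
      ∑ e ∈ removable x y G, f (G.erase e) ≤ (removable x y G).card * f G) (k : ℕ) :
    ex (law x y n k) f ≤ f (complete n) := by
  induction k with
  | zero => rw [law, ex_pure]
  | succ k ih =>
    rw [law, ex_bind]
    refine le_trans ?_ ih
    unfold ex
    apply sum_le_sum
    intro G _
    exact mul_le_mul_of_nonneg_left (ex_step_le x y G f (hf G)) ENNReal.toReal_nonneg

lemma step_ne_zero (x y : ℕ) (G G' : Finset (Fin n × Fin n)) (h : step x y G G' ≠ 0) :
    (∃ e ∈ removable x y G, G' = G.erase e) ∨ (removable x y G = ∅ ∧ G' = G) := by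
  unfold step at h
  by_cases hne : (removable x y G).Nonempty
  · rw [dif_pos hne] at h
    left
    have : G' ∈ ((PMF.uniformOfFinset (removable x y G) hne).map (fun e => G.erase e)).support := h
    rw [PMF.mem_support_map_iff] at this
    obtain ⟨e, he, rfl⟩ := this
    rw [PMF.mem_support_uniformOfFinset_iff] at he
    exact ⟨e, he, rfl⟩
  · rw [dif_neg hne] at h
    right
    have : G' ∈ (PMF.pure G).support := h
    rw [PMF.support_pure, Set.mem_singleton_iff] at this
    exact ⟨not_nonempty_iff_eq_empty.1 hne, this⟩

lemma card_complete (n : ℕ) : (complete n).card = n.choose 2 := by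
  unfold complete
  rw [card_filter, Fintype.sum_prod_type_right]
  have h : ∀ b : Fin n, ∑ a : Fin n, (if (a, b).1 < (a, b).2 then 1 else 0) = (b : ℕ) := by
    intro b
    rw [← card_filter]
    have : (univ.filter fun a : Fin n => (a, b).1 < (a, b).2) = Iio b := by
      ext a; simp
    rw [this, Fin.card_Iio]
  rw [sum_congr rfl fun b _ => h b, Fin.sum_univ_eq_sum_range (fun i => i) n, sum_range_id,
    Nat.choose_two_right]

lemma card_initials_complete (n : ℕ) : (initials (complete n)).card ≤ 1 := by
  rw [card_le_one]
  intro a ha b hb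
  simp only [initials, complete, mem_filter, mem_univ, true_and] at ha hb
  rcases lt_trichotomy a b with h | h | h
  · exact absurd rfl (hb (a, b) h)
  · exact h
  · exact absurd rfl (ha (b, a) h)

lemma card_terminals_complete (n : ℕ) : (terminals (complete n)).card ≤ 1 := by
  rw [card_le_one]
  intro a ha b hb
  simp only [terminals, complete, mem_filter, mem_univ, true_and] at ha hb
  rcases lt_trichotomy a b with h | h | h
  · exact absurd rfl (ha (a, b) h)
  · exact h
  · exact absurd rfl (hb (b, a) h)

/-- what holds for all graphs produced by the process -/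
lemma invariant (x y : ℕ) (hx : 1 ≤ x) (hy : 1 ≤ y) (k : ℕ) :
    ∀ G, law x y n k G ≠ 0 → G ⊆ complete n ∧ (initials G).card ≤ x ∧ (terminals G).card ≤ y ∧
      (removable x y G = ∅ ∨ G.card + k ≤ n.choose 2) := by
  induction k with
  | zero =>
    intro G hG
    have : G ∈ (PMF.pure (complete n)).support := hG
    rw [PMF.support_pure, Set.mem_singleton_iff] at this
    subst this
    exact ⟨Subset.rfl, (card_initials_complete n).trans hx, (card_terminals_complete n).trans hy,
      Or.inr (by rw [card_complete]; simp)⟩
  | succ k ih =>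
    intro G' hG'
    have : G' ∈ ((law x y n k).bind (step x y)).support := hG'
    rw [PMF.mem_support_bind_iff] at this
    obtain ⟨G, hG, hGG'⟩ := this
    obtain ⟨h1, h2, h3, h4⟩ := ih G hG
    rcases step_ne_zero x y G G' hGG' with ⟨e, he, rfl⟩ | ⟨he, rfl⟩
    · have he' := he
      simp only [removable, mem_filter] at he'
      refine ⟨(erase_subset _ _).trans h1, he'.2.1, he'.2.2, Or.inr ?_⟩
      rcases h4 with h4 | h4
      · rw [h4] at he
        exact absurd he (notMem_empty _)
      · rw [card_erase_of_mem he'.1]
        have := card_pos.2 ⟨e, he'.1⟩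
        omega
    · exact ⟨h1, h2, h3, Or.inl he⟩

/-- the process has stopped after `n choose 2` steps -/
lemma stopped (x y : ℕ) (hx : 1 ≤ x) (hy : 1 ≤ y) (G : Finset (Fin n × Fin n))
    (hG : law x y n (n.choose 2) G ≠ 0) : removable x y G = ∅ := by
  rcases (invariant x y hx hy _ G hG).2.2.2 with h | h
  · exact h
  · have : G = ∅ := by
      rw [← card_eq_zero]; omega
    rw [this]
    simp [removable]

/-- the edges among the last `y` vertices -/
def lastEdges (n y : ℕ) : Finset (Fin n × Fin n) :=
  univ.filter (fun f => n ≤ f.1.val + y ∧ f.1 < f.2)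

/-- the edges among the first `x` vertices -/
def firstEdges (n x : ℕ) : Finset (Fin n × Fin n) :=
  univ.filter (fun f => f.2.val < x ∧ f.1 < f.2)

lemma phi_eq_one (g h : Fin n × Fin n → Fin n) (b : ℕ) (f : Fin n × Fin n)
    (G : Finset (Fin n × Fin n)) (hf : f ∈ G) (hb : (miss h G).card < b)
    (hd : (fib g (g f) G).card ≤ 1) : phi g h b f G = 1 := by
  have := fib_pos g hf
  have hd1 : (fib g (g f) G).card = 1 := by omega
  unfold phi
  rw [if_pos ⟨hf, hb⟩, hd1]
  norm_num

/-- if the process has stopped, then one of the supermartingales is `1` -/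
lemma bad_bound (x y : ℕ) (hn : x + y < n) (G : Finset (Fin n × Fin n))
    (hsub : G ⊆ complete n) (h1 : (initials G).card ≤ x) (h2 : (terminals G).card ≤ y)
    (hr : removable x y G = ∅) (hbad : ¬ ((initials G).card = x ∧ (terminals G).card = y)) :
    (1 : ℝ) ≤ ∑ f ∈ lastEdges n y, phi Prod.snd Prod.fst y f G +
      ∑ f ∈ firstEdges n x, phi Prod.fst Prod.snd x f G := by
  have hP : 0 ≤ ∑ f ∈ lastEdges n y, phi Prod.snd Prod.fst y f G :=
    sum_nonneg fun f _ => phi_nonneg _ _ _ _ _
  have hQ : 0 ≤ ∑ f ∈ firstEdges n x, phi Prod.fst Prod.snd x f G :=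
    sum_nonneg fun f _ => phi_nonneg _ _ _ _ _
  have hnr : ∀ e ∈ G, ¬ ((miss Prod.snd (G.erase e)).card ≤ x ∧
      (miss Prod.fst (G.erase e)).card ≤ y) := by
    intro e he hcon
    have : e ∈ removable x y G := mem_filter.2 ⟨he, hcon⟩
    rw [hr] at this
    exact absurd this (notMem_empty _)
  rw [initials_eq] at h1 hbad
  rw [terminals_eq] at h2 hbad
  -- not both counts are too small
  have hboth : ¬ ((miss Prod.snd G).card < x ∧ (miss Prod.fst G).card < y) := by
    rintro ⟨h3, h4⟩
    have hG : G = ∅ := by
      rw [eq_empty_iff_forall_notMem]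
      intro e he
      apply hnr e he
      have := card_miss_erase Prod.snd G e
      have := card_miss_erase Prod.fst G e
      constructor <;> omega
    rw [hG] at h3
    have : (miss Prod.snd (∅ : Finset (Fin n × Fin n))) = univ := by
      ext v; simp [miss]
    rw [this, card_univ, Fintype.card_fin] at h3
    omega
  by_cases hy : (miss Prod.fst G).card < y
  · have hx : (miss Prod.snd G).card = x := by
      by_contra hne
      exact hboth ⟨by omega, hy⟩
    -- in-degrees are at most one
    have hdeg : ∀ e ∈ G, (fib Prod.snd e.2 G).card ≤ 1 := by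
      intro e he
      by_contra hcon
      apply hnr e he
      have h3 := card_miss_erase Prod.fst G e
      have h4 := miss_erase_eq Prod.snd G e (by omega)
      rw [h4]
      constructor <;> omega
    -- one of the last `y` vertices is not terminal
    obtain ⟨s, hs1, hs2⟩ : ∃ s : Fin n, n ≤ s.val + y ∧ s ∉ miss Prod.fst G := by
      by_contra hcon
      push Not at hcon
      have hsub' : (univ.filter fun s : Fin n => n ≤ s.val + y) ⊆ miss Prod.fst G := by
        intro s hs
        exact hcon s (mem_filter.1 hs).2
      have hcard : y ≤ (univ.filter fun s : Fin n => n ≤ s.val + y).card := by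
        have : (univ.filter fun s : Fin n => n ≤ s.val + y) = Ici ⟨n - y, by omega⟩ := by
          ext s
          simp only [mem_filter, mem_univ, true_and, mem_Ici, Fin.le_def]
          omega
        rw [this, Fin.card_Ici]
        simp only
        omega
      have := card_le_card hsub'
      omega
    simp only [miss, mem_filter, mem_univ, true_and, not_forall, not_not] at hs2
    obtain ⟨f, hf, hfs⟩ := hs2
    have hlt : f.1 < f.2 := (mem_filter.1 (hsub hf)).2
    have hmem : f ∈ lastEdges n y := mem_filter.2 ⟨mem_univ _, by rw [hfs]; exact hs1, hlt⟩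
    have h5 : phi Prod.snd Prod.fst y f G = 1 :=
      phi_eq_one _ _ _ _ _ hf hy (hdeg f hf)
    have h6 := single_le_sum (f := fun f => phi Prod.snd Prod.fst y f G)
      (fun f _ => phi_nonneg _ _ _ _ _) hmem
    simp only [h5] at h6
    linarith
  · have hy' : (miss Prod.fst G).card = y := by omega
    have hx : (miss Prod.snd G).card < x := by
      by_contra hcon
      exact hbad ⟨by omega, hy'⟩
    have hdeg : ∀ e ∈ G, (fib Prod.fst e.1 G).card ≤ 1 := by
      intro e he
      by_contra hcon
      apply hnr e he
      have h3 := card_miss_erase Prod.snd G e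
      have h4 := miss_erase_eq Prod.fst G e (by omega)
      rw [h4]
      constructor <;> omega
    obtain ⟨s, hs1, hs2⟩ : ∃ s : Fin n, s.val < x ∧ s ∉ miss Prod.snd G := by
      by_contra hcon
      push Not at hcon
      have hsub' : (univ.filter fun s : Fin n => s.val < x) ⊆ miss Prod.snd G := by
        intro s hs
        exact hcon s (mem_filter.1 hs).2
      have hcard : x ≤ (univ.filter fun s : Fin n => s.val < x).card := by
        have : (univ.filter fun s : Fin n => s.val < x) = Iio ⟨x, by omega⟩ := by
          ext s
          simp only [mem_filter, mem_univ, true_and, mem_Iio, Fin.lt_def]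
        rw [this, Fin.card_Iio]
      have := card_le_card hsub'
      omega
    simp only [miss, mem_filter, mem_univ, true_and, not_forall, not_not] at hs2
    obtain ⟨f, hf, hfs⟩ := hs2
    have hlt : f.1 < f.2 := (mem_filter.1 (hsub hf)).2
    have hmem : f ∈ firstEdges n x := mem_filter.2 ⟨mem_univ _, by rw [hfs]; exact hs1, hlt⟩
    have h5 : phi Prod.fst Prod.snd x f G = 1 :=
      phi_eq_one _ _ _ _ _ hf hx (hdeg f hf)
    have h6 := single_le_sum (f := fun f => phi Prod.fst Prod.snd x f G)
      (fun f _ => phi_nonneg _ _ _ _ _) hmem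
    simp only [h5] at h6
    linarith

lemma fib_snd_complete (t : Fin n) : (fib Prod.snd t (complete n)).card = t.val := by
  have : fib Prod.snd t (complete n) = (Iio t).image (fun a => (a, t)) := by
    ext ⟨a, b⟩
    simp only [fib, complete, mem_filter, mem_univ, true_and, mem_image, mem_Iio, Prod.mk.injEq]
    constructor
    · rintro ⟨h1, rfl⟩
      exact ⟨a, h1, rfl, rfl⟩
    · rintro ⟨c, h1, rfl, rfl⟩
      exact ⟨h1, rfl⟩
  rw [this, card_image_of_injective _ (fun a b h => (Prod.mk.inj h).1), Fin.card_Iio]

lemma fib_fst_complete (s : Fin n) : (fib Prod.fst s (complete n)).card = n - 1 - s.val := by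
  have : fib Prod.fst s (complete n) = (Ioi s).image (fun a => (s, a)) := by
    ext ⟨a, b⟩
    simp only [fib, complete, mem_filter, mem_univ, true_and, mem_image, mem_Ioi, Prod.mk.injEq]
    constructor
    · rintro ⟨h1, rfl⟩
      exact ⟨b, h1, rfl, rfl⟩
    · rintro ⟨c, h1, rfl, rfl⟩
      exact ⟨h1, rfl⟩
  rw [this, card_image_of_injective _ (fun a b h => (Prod.mk.inj h).2), Fin.card_Ioi]

lemma phi_le (g h : Fin n × Fin n → Fin n) (b m : ℕ) (f : Fin n × Fin n)
    (G : Finset (Fin n × Fin n)) (hm : 0 < m) (hd : m ≤ (fib g (g f) G).card) :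
    phi g h b f G ≤ 1 / (m : ℝ) := by
  unfold phi
  split_ifs
  · apply one_div_le_one_div_of_le (by exact_mod_cast hm)
    exact_mod_cast hd
  · positivity

lemma card_lastEdges (y : ℕ) (hn : y ≤ n) : (lastEdges n y).card ≤ y ^ 2 := by
  have hsub : lastEdges n y ⊆ (univ.filter fun s : Fin n => n ≤ s.val + y) ×ˢ
      (univ.filter fun s : Fin n => n ≤ s.val + y) := by
    intro f hf
    simp only [lastEdges, mem_filter, mem_univ, true_and, mem_product, Fin.lt_def] at hf ⊢
    omega
  have hcard : (univ.filter fun s : Fin n => n ≤ s.val + y).card ≤ y := by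
    rcases Nat.eq_zero_or_pos y with rfl | hy
    · rw [Nat.le_zero, card_eq_zero, filter_eq_empty_iff]
      intro s _
      have := s.2
      omega
    · have : (univ.filter fun s : Fin n => n ≤ s.val + y) = Ici ⟨n - y, by omega⟩ := by
        ext s
        simp only [mem_filter, mem_univ, true_and, mem_Ici, Fin.le_def]
        omega
      rw [this, Fin.card_Ici]
      simp only
      omega
  calc (lastEdges n y).card ≤ _ := card_le_card hsub
    _ = _ := card_product _ _
    _ ≤ y * y := Nat.mul_le_mul hcard hcard
    _ = y ^ 2 := (sq y).symm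

lemma card_firstEdges (x : ℕ) (hn : x < n) : (firstEdges n x).card ≤ x ^ 2 := by
  have hsub : firstEdges n x ⊆ (univ.filter fun s : Fin n => s.val < x) ×ˢ
      (univ.filter fun s : Fin n => s.val < x) := by
    intro f hf
    simp only [firstEdges, mem_filter, mem_univ, true_and, mem_product, Fin.lt_def] at hf ⊢
    omega
  have hcard : (univ.filter fun s : Fin n => s.val < x).card ≤ x := by
    have : (univ.filter fun s : Fin n => s.val < x) = Iio ⟨x, by omega⟩ := by
      ext s
      simp only [mem_filter, mem_univ, true_and, mem_Iio, Fin.lt_def]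
    rw [this, Fin.card_Iio]
  calc (firstEdges n x).card ≤ _ := card_le_card hsub
    _ = _ := card_product _ _
    _ ≤ x * x := Nat.mul_le_mul hcard hcard
    _ = x ^ 2 := (sq x).symm

end graph

theorem r_lower (x y n : ℕ) (hx : 1 ≤ x) (hy : 1 ≤ y) (hn : x + y < n) :
    1 - ((x : ℝ) ^ 2 + (y : ℝ) ^ 2) / ((n : ℝ) - x - y) ≤ r x y n := by
  classical
  set p := law x y n (n.choose 2) with hp
  set m := n - x - y with hm
  have hm0 : 0 < m := by omega
  have hmr : (m : ℝ) = (n : ℝ) - x - y := by
    rw [hm, Nat.sub_sub, Nat.cast_sub (by omega)]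
    push_cast
    ring
  have h1 : (1 : ℝ) ≤ r x y n + (∑ f ∈ lastEdges n y, ex p (phi Prod.snd Prod.fst y f) +
      ∑ f ∈ firstEdges n x, ex p (phi Prod.fst Prod.snd x f)) := by
    unfold r
    rw [← hp, ex_indicator, ← ex_sum, ← ex_sum, ← ex_add, ← ex_add]
    refine (ex_one p).symm.le.trans ?_
    apply ex_mono
    intro G hG
    obtain ⟨h1, h2, h3, -⟩ := invariant x y hx hy _ G hG
    have h4 := stopped x y hx hy G hG
    by_cases hbad : (initials G).card = x ∧ (terminals G).card = y
    · have h5 : G ∈ {G : Finset (Fin n × Fin n) |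
          (initials G).card = x ∧ (terminals G).card = y} := hbad
      rw [if_pos h5]
      have hP : 0 ≤ ∑ f ∈ lastEdges n y, phi Prod.snd Prod.fst y f G :=
        sum_nonneg fun f _ => phi_nonneg _ _ _ _ _
      have hQ : 0 ≤ ∑ f ∈ firstEdges n x, phi Prod.fst Prod.snd x f G :=
        sum_nonneg fun f _ => phi_nonneg _ _ _ _ _
      linarith
    · have h5 : G ∉ {G : Finset (Fin n × Fin n) |
          (initials G).card = x ∧ (terminals G).card = y} := hbad
      rw [if_neg h5]
      have := bad_bound x y hn G h1 h2 h3 h4 hbad
      linarith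
  have h2 : ∑ f ∈ lastEdges n y, ex p (phi Prod.snd Prod.fst y f) ≤ (y : ℝ) ^ 2 * (1 / m) := by
    calc ∑ f ∈ lastEdges n y, ex p (phi Prod.snd Prod.fst y f)
        ≤ ∑ _f ∈ lastEdges n y, (1 / (m : ℝ)) := by
          apply sum_le_sum
          intro f hf
          have h3 := ex_law_le x y (phi Prod.snd Prod.fst y f)
            (fun G hne => by
              rw [removable_eq1] at hne ⊢
              exact phi_super Prod.snd Prod.fst x y f G hne) (n.choose 2)
          refine h3.trans (phi_le _ _ _ _ _ _ hm0 ?_)
          rw [fib_snd_complete]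
          simp only [lastEdges, mem_filter, mem_univ, true_and, Fin.lt_def] at hf
          omega
      _ = ((lastEdges n y).card : ℝ) * (1 / m) := by rw [sum_const, nsmul_eq_mul]
      _ ≤ (y : ℝ) ^ 2 * (1 / m) := by
          apply mul_le_mul_of_nonneg_right _ (by positivity)
          exact_mod_cast card_lastEdges y (by omega)
  have h3 : ∑ f ∈ firstEdges n x, ex p (phi Prod.fst Prod.snd x f) ≤ (x : ℝ) ^ 2 * (1 / m) := by
    calc ∑ f ∈ firstEdges n x, ex p (phi Prod.fst Prod.snd x f)
        ≤ ∑ _f ∈ firstEdges n x, (1 / (m : ℝ)) := by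
          apply sum_le_sum
          intro f hf
          have h3 := ex_law_le x y (phi Prod.fst Prod.snd x f)
            (fun G hne => by
              rw [removable_eq2] at hne ⊢
              exact phi_super Prod.fst Prod.snd y x f G hne) (n.choose 2)
          refine h3.trans (phi_le _ _ _ _ _ _ hm0 ?_)
          rw [fib_fst_complete]
          simp only [firstEdges, mem_filter, mem_univ, true_and, Fin.lt_def] at hf
          omega
      _ = ((firstEdges n x).card : ℝ) * (1 / m) := by rw [sum_const, nsmul_eq_mul]
      _ ≤ (x : ℝ) ^ 2 * (1 / m) := by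
          apply mul_le_mul_of_nonneg_right _ (by positivity)
          exact_mod_cast card_firstEdges x (by omega)
  rw [← hmr]
  have h4 : ((x : ℝ) ^ 2 + (y : ℝ) ^ 2) / m = (x : ℝ) ^ 2 * (1 / m) + (y : ℝ) ^ 2 * (1 / m) := by
    ring
  rw [h4]
  linarith

lemma r_le_one (x y n : ℕ) : r x y n ≤ 1 := by
  classical
  unfold r
  rw [ex_indicator]
  refine le_trans ?_ (ex_one (law x y n (n.choose 2))).le
  apply ex_mono
  intro G _
  split_ifs <;> norm_num

/-- **Theorem.** For all `x, y ≥ 1`: the process on `n` vertices has stopped after `n choose 2`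
steps; the probability `r_{x,y,n}` that it stops at an `(x, y)` task-dependency graph satisfies
`r_{x,y,n} ≥ 1 - (x ^ 2 + y ^ 2) / (n - x - y)` for `n > x + y`; and `r_{x,y,n} → 1` as
`n → ∞`. -/
theorem result (x y : ℕ) (hx : 1 ≤ x) (hy : 1 ≤ y) :
    (∀ n : ℕ, ∀ G ∈ (law x y n (n.choose 2)).support, removable x y G = ∅) ∧
    (∀ n : ℕ, x + y < n →
      1 - ((x : ℝ) ^ 2 + (y : ℝ) ^ 2) / ((n : ℝ) - x - y) ≤ r x y n) ∧
    Tendsto (fun n => r x y n) atTop (𝓝 1) := by
  refine ⟨fun n G hG => stopped x y hx hy G hG, fun n hn => r_lower x y n hx hy hn, ?_⟩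
  have h1 : Tendsto (fun n : ℕ => 1 - ((x : ℝ) ^ 2 + (y : ℝ) ^ 2) / ((n : ℝ) - x - y)) atTop
      (𝓝 (1 - 0)) := by
    apply tendsto_const_nhds.sub
    apply tendsto_const_nhds.div_atTop
    apply tendsto_atTop_add_const_right
    exact tendsto_atTop_add_const_right _ _ tendsto_natCast_atTop_atTop
  rw [sub_zero] at h1
  refine tendsto_of_tendsto_of_tendsto_of_le_of_le' h1 tendsto_const_nhds ?_
    (Eventually.of_forall (r_le_one x y))
  filter_upwards [eventually_gt_atTop (x + y)] with n hn
  exact r_lower x y n hx hy hn

end Pool.Agent.Results.MP_f59edb_pr.ShapeLimit
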